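import Pool.Agent.X190.UHFp.Main
import Pool.Agent.Helper741.UHF.Exist

/-! Embedding criterion for general `m` and infinitely many factors. -/

open Finset Cardinal

universe u

namespace Pool.Agent.X190.UHFp

open Pool.Agent.Helper741.UHF

theorem exists_injective_choice {X J : Type u} (P : X → Set J) (hP : ∀ x, #X ≤ #(P x)) :
    ∃ f : X → J, Function.Injective f ∧ ∀ x, f x ∈ P x := by
  classical
  obtain ⟨r, wo, hr⟩ := Cardinal.exists_ord_eq X
  have hex : ∀ (x : X) (g : {y // r y x} → J), ∃ z ∈ P x, ∀ y, g y ≠ z := by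
    intro x g
    by_contra hcon
    push Not at hcon
    have h1 : P x ⊆ Set.range g := fun z hz => by
      obtain ⟨y, hy⟩ := hcon z hz
      exact ⟨y, hy⟩
    have h2 : #(P x) ≤ #{y // r y x} := (mk_le_mk_of_subset h1).trans mk_range_le
    have h3 : #{y // r y x} < #X := by
      rw [← Ordinal.card_typein]
      exact Cardinal.card_typein_lt x hr
    exact absurd ((hP x).trans h2) (not_le.mpr h3)
  choose F hF1 hF2 using hex
  let f : X → J := wo.wf.fix fun x ih => F x fun y => ih y.1 y.2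
  have hf : ∀ x, f x = F x fun y : {y // r y x} => f y.1 := fun x => wo.wf.fix_eq _ x
  refine ⟨f, fun a b hab => ?_, fun x => by rw [hf]; exact hF1 _ _⟩
  rcases trichotomous_of r a b with h | h | h
  · exfalso
    have := hF2 b (fun y : {y // r y b} => f y.1) ⟨a, h⟩
    rw [← hf] at this
    exact this hab
  · exact h
  · exfalso
    have := hF2 a (fun y : {y // r y a} => f y.1) ⟨b, h⟩
    rw [← hf] at this
    exact this hab.symm

/-- a subsystem of size `q ∣ n` -/
noncomputable def subE {E : Type*} [CStarAlgebra E] (q n : ℕ) (e : ℕ → ℕ → E) (a b : ℕ) : E :=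
  if a < q ∧ b < q then ∑ c ∈ range (n / q), e (a + q * c) (b + q * c) else 0

theorem sub_musys {J E : Type*} [CStarAlgebra E] {n q : J → ℕ} {e : J → ℕ → ℕ → E}
    (h : MUSys n e) (hq : ∀ j, q j ∣ n j) : MUSys q (fun j => subE (q j) (n j) (e j)) := by
  have hpos : ∀ j, 0 < q j := fun j => Nat.pos_of_dvd_of_pos (hq j) (h.pos j)
  have hlt : ∀ j a c, a < q j → c < n j / q j → a + q j * c < n j := by
    intro j a c ha hc
    calc a + q j * c < q j + q j * c := by omega
      _ = q j * (c + 1) := by ring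
      _ ≤ q j * (n j / q j) := Nat.mul_le_mul_left _ hc
      _ = n j := Nat.mul_div_cancel' (hq j)
  have hmul : ∀ j a b b' c, a < q j → b < q j → b' < q j → c < q j →
      (∑ x ∈ range (n j / q j), e j (a + q j * x) (b + q j * x)) *
      (∑ y ∈ range (n j / q j), e j (b' + q j * y) (c + q j * y)) =
      if b = b' then ∑ x ∈ range (n j / q j), e j (a + q j * x) (c + q j * x) else 0 := by
    intro j a b b' c ha hb hb' hc
    rw [Finset.sum_mul_sum]
    split_ifs with hbb
    · subst hbb
      refine Finset.sum_congr rfl fun x hx => ?_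
      rw [Finset.sum_eq_single x]
      · exact h.mul_same j _ _ _ (hlt j b x hb (Finset.mem_range.1 hx))
      · intro y _ hy
        refine h.mul_ne j _ _ _ _ fun hh => hy ?_
        have h1 : q j * x = q j * y := by omega
        exact (Nat.eq_of_mul_eq_mul_left (hpos j) h1).symm
      · intro hx'
        exact absurd hx hx'
    · refine Finset.sum_eq_zero fun x _ => Finset.sum_eq_zero fun y _ => ?_
      refine h.mul_ne j _ _ _ _ fun hh => hbb ?_
      have h1 : (b + q j * x) % q j = (b' + q j * y) % q j := by rw [hh]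
      rwa [Nat.add_mul_mod_self_left, Nat.add_mul_mod_self_left, Nat.mod_eq_of_lt hb,
        Nat.mod_eq_of_lt hb'] at h1
  refine ⟨hpos, fun j a b ha => ?_, fun j a b c hb => ?_, fun j a b c d hbc => ?_,
    fun j a b => ?_, fun j => ?_, fun i j hij a b c d => ?_⟩
  · simp only [subE]
    rw [if_neg]
    rintro ⟨h1, _⟩
    omega
  · simp only [subE]
    by_cases ha : a < q j
    · by_cases hc : c < q j
      · rw [if_pos ⟨ha, hb⟩, if_pos ⟨hb, hc⟩, if_pos ⟨ha, hc⟩, hmul j a b b c ha hb hb hc,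
          if_pos rfl]
      · rw [if_neg (show ¬ (b < q j ∧ c < q j) from fun h => hc h.2),
          if_neg (show ¬ (a < q j ∧ c < q j) from fun h => hc h.2), mul_zero]
    · rw [if_neg (show ¬ (a < q j ∧ b < q j) from fun h => ha h.1), zero_mul,
        if_neg (show ¬ (a < q j ∧ c < q j) from fun h => ha h.1)]
  · simp only [subE]
    by_cases h1 : a < q j ∧ b < q j
    · by_cases h2 : c < q j ∧ d < q j
      · rw [if_pos h1, if_pos h2, hmul j a b c d h1.1 h1.2 h2.1 h2.2, if_neg hbc]
      · rw [if_neg h2, mul_zero]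
    · rw [if_neg h1, zero_mul]
  · simp only [subE]
    by_cases h1 : a < q j ∧ b < q j
    · rw [if_pos h1, if_pos ⟨h1.2, h1.1⟩, star_sum]
      exact Finset.sum_congr rfl fun x _ => h.star_e j _ _
    · rw [if_neg h1, if_neg (fun h => h1 ⟨h.2, h.1⟩), star_zero]
  · rw [← h.one j]
    have e1 : ∑ a ∈ range (q j), subE (q j) (n j) (e j) a a =
        ∑ a ∈ range (q j), ∑ c ∈ range (n j / q j), e j (a + q j * c) (a + q j * c) := by
      refine Finset.sum_congr rfl fun a ha => ?_
      simp only [subE]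
      rw [if_pos ⟨Finset.mem_range.1 ha, Finset.mem_range.1 ha⟩]
    rw [e1, ← Finset.sum_product']
    refine Finset.sum_nbij' (fun x => x.1 + q j * x.2) (fun a => (a % q j, a / q j)) ?_ ?_ ?_ ?_ ?_
    · rintro ⟨x, y⟩ hxy
      simp only [Finset.mem_product, Finset.mem_range] at hxy ⊢
      exact hlt j x y hxy.1 hxy.2
    · intro a ha
      simp only [Finset.mem_product, Finset.mem_range] at ha ⊢
      refine ⟨Nat.mod_lt _ (hpos j), Nat.div_lt_of_lt_mul ?_⟩
      rwa [Nat.mul_div_cancel' (hq j)]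
    · rintro ⟨x, y⟩ hxy
      simp only [Finset.mem_product, Finset.mem_range] at hxy
      refine Prod.ext ?_ ?_
      · simp only [Nat.add_mul_mod_self_left]
        exact Nat.mod_eq_of_lt hxy.1
      · simp only
        rw [Nat.add_mul_div_left _ _ (hpos j), Nat.div_eq_of_lt hxy.1, zero_add]
    · intro a _
      exact Nat.mod_add_div a (q j)
    · intro a _
      rfl
  · simp only [subE]
    split_ifs
    · exact Commute.sum_right _ _ _ fun x _ => Commute.sum_left _ _ _ fun y _ =>
        h.comm i j hij _ _ _ _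
    · exact Commute.zero_right _
    · exact Commute.zero_left _
    · exact Commute.zero_left _

theorem mk_le_of_embeds {J K E C : Type u} [CStarAlgebra E] [CStarAlgebra C] {n : J → ℕ}
    (hn : ∀ j, 0 < n j) {m : ℕ} (hm : 0 < m) [Infinite K] (hE : IsMatrixTensor n E)
    (hC : IsMatrixTensor (fun _ : K => m) C) (hφ : EmbedsUnitally C E) {p : ℕ} (hp : p.Prime)
    (hpm : p ∣ m) : #K ≤ #{j | p ∣ n j} := by
  classical
  obtain ⟨hEn, ι, hι, hιg⟩ := hE
  obtain ⟨_, κ, hκ, _⟩ := hC
  obtain ⟨φ, _⟩ := hφ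
  have h := musys_unitsOf ι hn hι
  have hgen := adjoin_unitsOf ι hιg
  have h1 := (musys_unitsOf κ (fun _ => hm) hκ).map φ
  have h2 := sub_musys h1 (q := fun _ => p) (fun _ => hpm)
  exact mk_leN h hgen hp h2

theorem embeds_of_mk_leN {J K E C : Type u} [CStarAlgebra E] [CStarAlgebra C] {n : J → ℕ}
    (hn : ∀ j, 0 < n j) {m : ℕ} (hm : 0 < m) [Infinite K] (hE : IsMatrixTensor n E)
    (hC : IsMatrixTensor (fun _ : K => m) C)
    (hle : ∀ p : ℕ, p.Prime → p ∣ m → #K ≤ #{j | p ∣ n j}) : EmbedsUnitally C E := by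
  classical
  obtain ⟨hEn, ι, hι, _⟩ := hE
  obtain ⟨hCn, κ, hκ, hκg⟩ := hC
  have h := musys_unitsOf ι hn hι
  set l := m.primeFactorsList with hl
  have hprod : l.prod = m := Nat.prod_primeFactorsList hm.ne'
  have hlp : ∀ i : Fin l.length, (l.get i).Prime ∧ l.get i ∣ m := fun i =>
    ⟨Nat.prime_of_mem_primeFactorsList (List.get_mem l i),
      Nat.dvd_of_mem_primeFactorsList (List.get_mem l i)⟩
  obtain ⟨f, hf, hfP⟩ := exists_injective_choice
    (X := K × Fin l.length) (fun x => {j : J | l.get x.2 ∣ n j}) (by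
      intro x
      refine le_trans ?_ (hle _ (hlp x.2).1 (hlp x.2).2)
      rw [Cardinal.mk_prod, Cardinal.mk_fin]
      simp only [Cardinal.lift_uzero, Cardinal.lift_natCast]
      exact mul_le_of_le (aleph0_le_mk K) le_rfl ((natCast_lt_aleph0).le.trans (aleph0_le_mk K)))
  have h1 := h.restrict f hf
  have h2 := sub_musys h1 (q := fun x : K × Fin l.length => l.get x.2) hfP
  obtain ⟨G, hG, _⟩ := exists_prod (K := K) l
    (fun k i => subE (l.get i) (n (f (k, i))) (fun a b => unitsOf ι (f (k, i)) a b)) h2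
  rw [hprod] at hG
  obtain ⟨ψ, hψ, _⟩ := exists_embedding (musys_unitsOf κ (fun _ => hm) hκ) hG
    (adjoin_unitsOf κ hκg)
  exact ⟨ψ, hψ⟩

/-- The embedding criterion for an infinite index set. -/
theorem embeds_iffN {J K E C : Type u} [CStarAlgebra E] [CStarAlgebra C] {n : J → ℕ}
    (hn : ∀ j, 0 < n j) {m : ℕ} (hm : 0 < m) [Infinite K] (hE : IsMatrixTensor n E)
    (hC : IsMatrixTensor (fun _ : K => m) C) :
    EmbedsUnitally C E ↔ ∀ p : ℕ, p.Prime → p ∣ m → #K ≤ #{j | p ∣ n j} :=
  ⟨fun h _ hp hpm => mk_le_of_embeds hn hm hE hC h hp hpm, embeds_of_mk_leN hn hm hE hC⟩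

end Pool.Agent.X190.UHFp
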