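import Pool.Agent.X190.UHFp.Num
import Pool.Agent.Helper741.UHF.Criterion

/-! A unital copy of `M_N` in a tensor product of matrix algebras. -/

open Finset

universe u

namespace Pool.Agent.X190.UHFp

open Pool.Agent.Helper741.UHF

/-- exact matrix units -/
structure ExactU {A : Type*} [CStarAlgebra A] (N : ℕ) (U : Fin N → Fin N → A) : Prop where
  st : ∀ a b, star (U a b) = U b a
  ml : ∀ a b c d, U a b * U c d = if b = c then U a d else 0
  sm : ∑ a, U a a = 1

section

variable {A : Type*} [CStarAlgebra A] {N : ℕ} {U : Fin N → Fin N → A}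

theorem ExactU.norm_le (h : ExactU N U) (a b : Fin N) : ‖U a b‖ ≤ 1 := by
  have h1 : ∀ b, ‖U b b‖ ≤ 1 := by
    intro b
    have h2 := CStarRing.norm_star_mul_self (x := U b b)
    rw [h.st, h.ml, if_pos rfl] at h2
    nlinarith [norm_nonneg (U b b)]
  have h2 := CStarRing.norm_star_mul_self (x := U a b)
  rw [h.st, h.ml, if_pos rfl] at h2
  nlinarith [norm_nonneg (U a b), h1 b]

theorem half_close {x y u : A} {η : ℝ} (hx : ‖x - u‖ ≤ η) (hy : ‖y - star u‖ ≤ η) :
    ‖(1 / 2 : ℂ) • (x + star y) - u‖ ≤ η := by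
  have h1 : (1 / 2 : ℂ) • (x + star y) - u = (1 / 2 : ℂ) • ((x - u) + star (y - star u)) := by
    rw [star_sub, star_star]
    have : u = (1 / 2 : ℂ) • (u + u) := by
      rw [← two_smul ℂ u, smul_smul]
      norm_num
    nth_rewrite 1 [this]
    rw [← smul_sub]
    congr 1
    abel
  rw [h1, norm_smul]
  have h2 : ‖(x - u) + star (y - star u)‖ ≤ η + η :=
    (norm_add_le _ _).trans (add_le_add hx (by rwa [norm_star]))
  have h3 : ‖(1 / 2 : ℂ)‖ = 1 / 2 := by norm_num
  rw [h3]
  linarith

theorem approx_of_close (h : ExactU N U) {η δ : ℝ} (hη1 : η ≤ 1) (h4 : 4 * η ≤ δ)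
    (hNη : N * η ≤ δ) {x : Fin N → Fin N → A} (hst : ∀ a b, star (x a b) = x b a)
    (hx : ∀ a b, ‖x a b - U a b‖ ≤ η) : ApproxU N δ x := by
  refine ⟨hst, fun a b => ?_, fun a b c d => ?_, ?_⟩
  · calc ‖x a b‖ = ‖(x a b - U a b) + U a b‖ := by rw [sub_add_cancel]
      _ ≤ ‖x a b - U a b‖ + ‖U a b‖ := norm_add_le _ _
      _ ≤ 2 := by linarith [hx a b, h.norm_le a b]
  · have h1 := norm_prod_sub_le hη1 (h.norm_le a b) (h.norm_le c d) (hx a b) (hx c d)
    have h2 : ‖(if b = c then U a d else 0) - (if b = c then x a d else 0)‖ ≤ η := by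
      split_ifs
      · rw [norm_sub_rev]; exact hx a d
      · rw [sub_zero, norm_zero]; exact (norm_nonneg _).trans (hx a b)
    rw [h.ml] at h1
    calc _ = ‖(x a b * x c d - (if b = c then U a d else 0)) +
        ((if b = c then U a d else 0) - (if b = c then x a d else 0))‖ := by
          congr 1; abel
      _ ≤ _ := norm_add_le _ _
      _ ≤ δ := by linarith
  · have h1 : ∑ a, x a a - 1 = ∑ a, (x a a - U a a) := by
      rw [Finset.sum_sub_distrib, h.sm]
    rw [h1]
    calc _ ≤ ∑ a : Fin N, η := (norm_sum_le _ _).trans (Finset.sum_le_sum fun a _ => hx a a)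
      _ = N * η := by rw [Finset.sum_const, Finset.card_univ, Fintype.card_fin, nsmul_eq_mul]
      _ ≤ δ := hNη

end

variable {J E : Type u} [CStarAlgebra E] {n : J → ℕ} {e : J → ℕ → ℕ → E}

theorem exists_dvdN [Nontrivial E] (h : MUSys n e)
    (hgen : (Algebra.adjoin ℂ {x | ∃ j a b, x = e j a b}).topologicalClosure = ⊤)
    {N : ℕ} (hN : 0 < N) {U : Fin N → Fin N → E} (hU : ExactU N U) :
    ∃ T : Finset J, N ∣ ∏ j ∈ T, n j := by
  classical
  set η := dl N / (N + 4) with hη
  have hd := dl_pos N
  have hη0 : 0 < η := by positivity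
  have hηN : η * (N + 4) = dl N := by rw [hη]; field_simp
  have hdl1 : dl N ≤ 1 := by
    unfold dl
    rw [div_le_one (by positivity)]
    have : (0 : ℝ) ≤ N := by positivity
    linarith
  have hN0 : (0 : ℝ) ≤ N := by positivity
  have hη1 : η ≤ 1 := by nlinarith
  have hη4 : 4 * η ≤ dl N := by nlinarith
  have hηN' : N * η ≤ dl N := by nlinarith
  have hx : ∀ i : Fin N × Fin N, ∃ T : Finset J, ∃ w ∈ D e (T : Set J), ‖w - U i.1 i.2‖ ≤ η := by
    intro i
    obtain ⟨T, w, hw, hwu⟩ := dense_D hgen (U i.1 i.2) hη0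
    exact ⟨T, w, hw, by rw [norm_sub_rev]; exact hwu.le⟩
  choose Tx x hxD hxu using hx
  set T : Finset J := Finset.univ.biUnion Tx with hT
  set ℓ := T.toList with hℓ
  let C : StarSubalgebra ℂ E := StarSubalgebra.centralizer ℂ Set.univ
  have hCmem : ∀ z, z ∈ C ↔ ∀ g, g * z = z * g := by
    intro z
    rw [StarSubalgebra.mem_centralizer_iff]
    exact ⟨fun hz g => (hz g trivial).1, fun hz g _ => ⟨hz g, hz _⟩⟩
  have hC : IsClosed (C : Set E) := Set.isClosed_centralizer _
  have hcomm : ∀ x ∈ C, ∀ y ∈ C, x * y = y * x := fun x _ y hy => (hCmem y).mp hy x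
  have hD0 : ∀ w ∈ D e (∅ : Set J), w ∈ C := by
    intro w hw
    refine D_induction (e := e) (N := ∅) (p := fun w => w ∈ C) ?_ ?_ ?_ ?_ hw
    · intro j hj
      exact absurd hj (Set.notMem_empty j)
    · intro c
      exact algebraMap_mem C c
    · exact fun x y hx hy => add_mem hx hy
    · exact fun x y hx hy => mul_mem hx hy
  have hsl : ∀ w ∈ D e (T : Set J), w ∈ sliceAlg h ℓ C := by
    intro w hw f hf g hg
    refine hD0 _ (Sl_mem_D h ℓ (Finset.nodup_toList T) (fun j _ => Set.notMem_empty j) ?_
      f g hf hg)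
    refine D_mono ?_ hw
    intro j hj
    exact Or.inr (by simpa [hℓ] using hj)
  have hxS : ∀ i, x i ∈ sliceAlg h ℓ C := fun i => hsl _ (D_mono (by
    intro j hj
    rw [hT]
    simp only [coe_biUnion, coe_univ, Set.mem_univ, Set.iUnion_true, Set.mem_iUnion]
    exact ⟨i, hj⟩) (hxD i))
  let x' : Fin N → Fin N → E := fun a b => (1 / 2 : ℂ) • (x (a, b) + star (x (b, a)))
  have hAP : ApproxU N (dl N) x' := by
    refine approx_of_close hU hη1 hη4 hηN' (fun a b => ?_) (fun a b => ?_)
    · simp only [x']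
      rw [star_smul, star_add, star_star]
      congr 1
      · simp
      · exact add_comm _ _
    · refine half_close (hxu (a, b)) ?_
      rw [hU.st]
      exact hxu (b, a)
  have hd := transferN h ℓ C hC hcomm hN x'
    (fun a b => SMulMemClass.smul_mem _ (add_mem (hxS _) (star_mem (hxS _)))) hAP
  have hprod : (ℓ.map n).prod = ∏ j ∈ T, n j := by
    rw [hℓ, Finset.prod_map_toList]
  exact ⟨T, hprod ▸ hd⟩

theorem padic_prodp {p : ℕ} [Fact p.Prime] {J : Type*} {n : J → ℕ} (T : Finset J)
    (hT : ∀ j ∈ T, n j ≠ 0) :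
    padicValNat p (∏ j ∈ T, n j) = ∑ j ∈ T, padicValNat p (n j) := by
  classical
  induction T using Finset.induction_on with
  | empty => simp
  | insert a T ha ih =>
    rw [Finset.prod_insert ha, Finset.sum_insert ha, padicValNat.mul
      (hT a (Finset.mem_insert_self _ _))
      (Finset.prod_ne_zero_iff.mpr fun j hj => hT j (Finset.mem_insert_of_mem hj)),
      ih fun j hj => hT j (Finset.mem_insert_of_mem hj)]

/-! ### products of systems -/

theorem exactU_of_musys {J : Type*} {E : Type*} [CStarAlgebra E] {n : J → ℕ}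
    {e : J → ℕ → ℕ → E} (h : MUSys n e) (j : J) {N : ℕ} (hN : n j = N) :
    ExactU N (fun a b => e j a b) := by
  subst hN
  refine ⟨fun a b => h.star_e j a b, fun a b c d => ?_, ?_⟩
  · split_ifs with hbc
    · subst hbc
      exact h.mul_same j a b d b.2
    · exact h.mul_ne j a b c d (fun hh => hbc (Fin.ext hh))
  · rw [← h.one j, Finset.sum_range]

theorem exists_prod {E : Type*} [CStarAlgebra E] {K : Type*} : ∀ (l : List ℕ)
    (f : K → Fin l.length → ℕ → ℕ → E),
    MUSys (fun p : K × Fin l.length => l.get p.2) (fun p => f p.1 p.2) →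
    ∃ g : K → ℕ → ℕ → E, MUSys (fun _ : K => l.prod) g ∧
      ∀ k a b z, (∀ i c d, Commute z (f k i c d)) → Commute z (g k a b)
  | [], f, _ => by
    refine ⟨fun _ a b => if a = 0 ∧ b = 0 then 1 else 0, ⟨fun _ => by simp, ?_, ?_, ?_, ?_, ?_, ?_⟩,
      ?_⟩
    · intro j a b ha
      rw [if_neg]
      rintro ⟨rfl, _⟩
      simp at ha
    · intro j a b c hb
      have : b = 0 := by simpa using hb
      subst this
      by_cases ha : a = 0 <;> by_cases hc : c = 0 <;> simp [ha, hc]
    · intro j a b c d hbc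
      by_cases hb : b = 0
      · subst hb
        rw [if_neg (show ¬ (c = 0 ∧ d = 0) from fun h => hbc h.1.symm), mul_zero]
      · rw [if_neg (show ¬ (a = 0 ∧ b = 0) from fun h => hb h.2), zero_mul]
    · intro j a b
      by_cases ha : a = 0 <;> by_cases hb : b = 0 <;> simp [ha, hb]
    · intro j
      simp
    · intro i j hij a b c d
      split_ifs <;> simp
    · intro k a b z _
      change Commute z (if a = 0 ∧ b = 0 then (1 : E) else 0)
      split_ifs <;> simp
  | q :: l, f, hf => by
    have hf' : MUSys (fun p : K × Fin l.length => l.get p.2) (fun p => f p.1 p.2.succ) := by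
      refine ⟨fun p => ?_, fun p a b ha => ?_, fun p a b c hb => ?_, fun p a b c d hbc => ?_,
        fun p a b => ?_, fun p => ?_, fun p p' hij a b c d => ?_⟩
      · exact hf.pos (p.1, p.2.succ)
      · exact hf.zero_left (p.1, p.2.succ) a b ha
      · exact hf.mul_same (p.1, p.2.succ) a b c hb
      · exact hf.mul_ne (p.1, p.2.succ) a b c d hbc
      · exact hf.star_e (p.1, p.2.succ) a b
      · exact hf.one (p.1, p.2.succ)
      · refine hf.comm (p.1, p.2.succ) (p'.1, p'.2.succ) (fun hh => hij ?_) a b c d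
        rw [Prod.mk.injEq] at hh
        exact Prod.ext hh.1 (Fin.succ_injective _ hh.2)
    obtain ⟨g, hg, hgc⟩ := exists_prod l (fun k i => f k i.succ) hf'
    let z : Fin (q :: l).length := ⟨0, by simp⟩
    have hq : ∀ k : K, 0 < q := fun k => hf.pos (k, z)
    have h0 : ∀ k : K, 0 < l.prod := fun k => hg.pos k
    have hcz : ∀ k a b c d, Commute (f k z a b) (g k c d) := by
      intro k a b c d
      refine hgc k c d _ fun i c' d' => ?_
      exact hf.comm (k, z) (k, i.succ) (fun hh => by
        rw [Prod.mk.injEq] at hh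
        exact absurd (congrArg Fin.val hh.2) (by simp [z])) a b c' d'
    have hczz : ∀ k k' a b c d, k ≠ k' → Commute (f k z a b) (g k' c d) := by
      intro k k' a b c d hk
      refine hgc k' c d _ fun i c' d' => ?_
      exact hf.comm (k, z) (k', i.succ) (fun hh => by
        rw [Prod.mk.injEq] at hh
        exact hk hh.1) a b c' d'
    have m4 : ∀ k a b c d a' b' c' d', f k z a b * g k c d * (f k z a' b' * g k c' d') =
        (f k z a b * f k z a' b') * (g k c d * g k c' d') := by
      intro k a b c d a' b' c' d'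
      rw [mul_assoc, ← mul_assoc (g k c d), (hcz k a' b' c d).symm.eq, mul_assoc, mul_assoc]
    refine ⟨fun k a b => f k z (a / l.prod) (b / l.prod) * g k (a % l.prod) (b % l.prod),
      ⟨fun k => ?_, fun k a b ha => ?_, fun k a b c hb => ?_, fun k a b c d hbc => ?_,
        fun k a b => ?_, fun k => ?_, fun k k' hij a b c d => ?_⟩, ?_⟩
    · rw [List.prod_cons]
      exact Nat.mul_pos (hq k) (h0 k)
    · rw [List.prod_cons] at ha
      have : q ≤ a / l.prod := (Nat.le_div_iff_mul_le (h0 k)).2 ha
      rw [hf.zero_left (k, z) _ _ this, zero_mul]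
    · rw [List.prod_cons] at hb
      have hb1 : b / l.prod < q := Nat.div_lt_of_lt_mul (by rwa [mul_comm])
      rw [m4, hf.mul_same (k, z) _ _ _ hb1, hg.mul_same k _ _ _ (Nat.mod_lt _ (h0 k))]
    · rw [m4]
      by_cases h1 : b / l.prod = c / l.prod
      · have h2 : b % l.prod ≠ c % l.prod := by
          intro h2
          apply hbc
          rw [← Nat.div_add_mod b l.prod, ← Nat.div_add_mod c l.prod, h1, h2]
        rw [hg.mul_ne k _ _ _ _ h2, mul_zero]
      · rw [hf.mul_ne (k, z) _ _ _ _ h1, zero_mul]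
    · rw [star_mul, hf.star_e (k, z), hg.star_e]
      exact (hcz k _ _ _ _).symm.eq
    · have hq' := hf.one (k, z)
      have hg' := hg.one k
      have e : ∑ a ∈ range (q * l.prod), f k z (a / l.prod) (a / l.prod) *
          g k (a % l.prod) (a % l.prod) =
          (∑ a ∈ range q, f k z a a) * (∑ b ∈ range l.prod, g k b b) := by
        rw [Finset.sum_mul_sum, ← Finset.sum_product']
        refine Finset.sum_nbij' (fun a => (a / l.prod, a % l.prod))
          (fun x => x.1 * l.prod + x.2) ?_ ?_ ?_ ?_ ?_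
        · intro a ha
          simp only [Finset.mem_range] at ha
          simp only [Finset.mem_product, Finset.mem_range]
          exact ⟨Nat.div_lt_of_lt_mul (by rwa [mul_comm]), Nat.mod_lt _ (h0 k)⟩
        · rintro ⟨x, y⟩ hxy
          simp only [Finset.mem_product, Finset.mem_range] at hxy ⊢
          calc x * l.prod + y < x * l.prod + l.prod := by omega
            _ = (x + 1) * l.prod := by ring
            _ ≤ q * l.prod := Nat.mul_le_mul_right _ hxy.1
        · intro a _
          simp only
          rw [mul_comm]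
          exact Nat.div_add_mod a l.prod
        · rintro ⟨x, y⟩ hxy
          simp only [Finset.mem_product, Finset.mem_range] at hxy
          have h1 : (x * l.prod + y) / l.prod = x := by
            rw [mul_comm, Nat.mul_add_div (h0 k), Nat.div_eq_of_lt hxy.2, add_zero]
          have h2 : (x * l.prod + y) % l.prod = y := by
            rw [mul_comm, Nat.mul_add_mod, Nat.mod_eq_of_lt hxy.2]
          simp only [h1, h2]
        · intro a _
          rfl
      rw [List.prod_cons, e, hg', mul_one]
      exact hq'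
    · have hfc : Commute (f k z (a / l.prod) (b / l.prod)) (f k' z (c / l.prod) (d / l.prod)) :=
        hf.comm (k, z) (k', z) (fun hh => hij (Prod.mk.inj hh).1) _ _ _ _
      have h1 := hczz k k' (a / l.prod) (b / l.prod) (c % l.prod) (d % l.prod) hij
      have h2 := (hczz k' k (c / l.prod) (d / l.prod) (a % l.prod) (b % l.prod) (Ne.symm hij)).symm
      have h3 := hg.comm k k' hij (a % l.prod) (b % l.prod) (c % l.prod) (d % l.prod)
      exact (hfc.mul_right h1).mul_left (h2.mul_right h3)
    · intro k a b w hw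
      refine (hw z _ _).mul_right (hgc k _ _ w fun i c d => hw i.succ c d)

end Pool.Agent.X190.UHFp
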