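import Pool.Agent.X190.UHFp.Fin
import Pool.Agent.Helper741.UHF.Infinite

/-! The case of infinitely many factors divisible by `p`. -/

open Finset Cardinal Filter Topology

universe u

namespace Pool.Agent.X190.UHFp

open Pool.Agent.Helper741.UHF

variable {J E : Type u} [CStarAlgebra E] {n : J → ℕ} {e : J → ℕ → ℕ → E} {N : ℕ}

/-- types -/
abbrev TyN (N : ℕ) (J E : Type u) : Type u := ℕ × List J × List ℕ × (Fin N × Fin N → List E)

/-- types over `M` -/
def OverN (N : ℕ) (e : J → ℕ → ℕ → E) (M : Set J) : Set (TyN N J E) :=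
  {τ | (∀ j ∈ τ.2.1, j ∈ M) ∧ ∀ s, ∀ c ∈ τ.2.2.2 s, c ∈ D e M}

theorem mk_OverN_le {κ : Cardinal.{u}} (hκ : ℵ₀ ≤ κ) (M : Set J) (hM : #M ≤ κ) :
    #(OverN N e M) ≤ κ := by
  have hD : #(D e M) ≤ κ := mk_D_le.trans (max_le hκ hM)
  let F : (ULift.{u} ℕ × List M × ULift.{u} (List ℕ) × (Fin N × Fin N → List (D e M))) →
      TyN N J E :=
    fun p => (p.1.down, p.2.1.map Subtype.val, p.2.2.1.down,
      fun s => (p.2.2.2 s).map Subtype.val)
  have hsub : OverN N e M ⊆ Set.range F := by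
    rintro ⟨m, R, ν, cx⟩ ⟨h1, h2⟩
    dsimp only at h1 h2
    lift R to List M using h1
    have h3 : ∀ s, ∃ l : List (D e M), l.map Subtype.val = cx s := by
      intro s
      have h4 := h2 s
      lift (cx s) to List (D e M) using h4 with l hl
      exact ⟨l, rfl⟩
    choose g hg using h3
    exact ⟨(⟨m⟩, R, ⟨ν⟩, g), by
      simp only [F]
      rw [funext hg]⟩
  refine (mk_le_mk_of_subset hsub).trans (mk_range_le.trans ?_)
  simp only [mk_prod, lift_id]
  refine mul_le_of_le hκ (by simpa using hκ) ?_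
  refine mul_le_of_le hκ (mk_list_le hκ hM) ?_
  refine mul_le_of_le hκ (by simpa using hκ) ?_
  rw [Cardinal.mk_arrow, Cardinal.mk_fintype (Fin N × Fin N), Cardinal.lift_natCast]
  simp only [Cardinal.lift_uzero]
  calc #(List (D e M)) ^ ((Fintype.card (Fin N × Fin N) : ℕ) : Cardinal.{u})
      ≤ κ ^ ((Fintype.card (Fin N × Fin N) : ℕ) : Cardinal.{u}) :=
        Cardinal.power_le_power_right (mk_list_le hκ hD)
    _ ≤ κ := Cardinal.power_nat_le hκ

theorem exists_k_fun (M : ℕ → Set J) (hM : Monotone M) {S : Type} [Fintype S] (l : S → List E)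
    (hl : ∀ s, ∀ c ∈ l s, c ∈ D e (⋃ k, M k)) : ∃ k, ∀ s, ∀ c ∈ l s, c ∈ D e (M k) := by
  have h1 : ∀ s, ∃ k, ∀ c ∈ l s, c ∈ D e (M k) := fun s => exists_k_list M hM (l s) (hl s)
  choose k hk using h1
  refine ⟨Finset.univ.sup k, fun s c hc => D_mono (hM ?_) (hk s c hc)⟩
  exact Finset.le_sup (f := k) (Finset.mem_univ s)

theorem OverN_finitary (M : ℕ → Set J) (hM : Monotone M) (τ : TyN N J E)
    (hτ : τ ∈ OverN N e (⋃ k, M k)) : ∃ k, τ ∈ OverN N e (M k) := by
  obtain ⟨h1, h2⟩ := hτ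
  obtain ⟨k1, h1⟩ := exists_k_set M hM _ h1
  obtain ⟨k2, h2⟩ := exists_k_fun M hM _ h2
  exact ⟨max k1 k2, fun j hj => hM (le_max_left _ _) (h1 j hj),
    fun s c hc => D_mono (hM (le_max_right _ _)) (h2 s c hc)⟩

/-- realisation of a type -/
def RealN {Λ : Type u} (n : J → ℕ) (e : J → ℕ → ℕ → E) (U : Λ → Fin N × Fin N → E) (ε : ℕ → ℝ)
    (τ : TyN N J E) (β : Λ) (t : Set J) : Prop :=
  ∃ ℓ : List J, ℓ.Nodup ∧ {j | j ∈ ℓ} = t ∧ (∀ j ∈ ℓ, j ∉ τ.2.1) ∧ ℓ.map n = τ.2.2.1 ∧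
    ∃ x : Fin N × Fin N → E, (∀ s, x s ∈ D e ({j | j ∈ τ.2.1} ∪ {j | j ∈ ℓ})) ∧
      (∀ s, ‖x s - U β s‖ ≤ ε τ.1) ∧ ∀ s, prof n e ℓ (x s) = τ.2.2.2 s

theorem coreN [Nontrivial E] (h : MUSys n e) (hN : 0 < N) {c : ℝ} (hc : 0 < c) (hc1 : 5 * c ≤ 1)
    (hc2 : 4 * (5 * c) ≤ dl N) (hc3 : N * (5 * c) ≤ dl N)
    (L : List J) (rest r : ℕ → List J) (hrest0 : rest 0 = [])
    (hrest : ∀ m, rest (m + 1) = rest m ++ r m)
    (X : Fin N × Fin N → ℕ → E) (U : Fin N → Fin N → E) (hU : ExactU N U)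
    (hX : ∀ b m, ‖X b m - U b.1 b.2‖ ≤ c * (1 / 2) ^ m)
    (hcX : ∀ b m, ∀ j ∈ r m, ∀ a d, Commute (e j a d) (X b m))
    (hcomm : ∀ b b' m, ∀ f ∈ idx ((L ++ rest m).map n), ∀ g ∈ idx ((L ++ rest m).map n),
      ∀ f' ∈ idx ((L ++ rest m).map n), ∀ g' ∈ idx ((L ++ rest m).map n),
      ‖Sl n e (L ++ rest m) f g (X b m) * Sl n e (L ++ rest m) f' g' (X b' m) -
        Sl n e (L ++ rest m) f' g' (X b' m) * Sl n e (L ++ rest m) f g (X b m)‖
        ≤ 6 * (c * (1 / 2) ^ m)) :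
    N ∣ (L.map n).prod := by
  classical
  set Xt : Fin N × Fin N → ℕ → E :=
    fun b m => Sl n e (rest m) (z0 (rest m)) (z0 (rest m)) (X b m) with hXt
  have hstep : ∀ b m, dist (Xt b m) (Xt b (m + 1)) ≤ 2 * c * (1 / 2) ^ m := by
    intro b m
    have h1 : Xt b (m + 1) = Sl n e (rest m) (z0 (rest m)) (z0 (rest m))
        (Sl n e (r m) (z0 (r m)) (z0 (r m)) (X b (m + 1))) := by
      simp only [hXt]
      rw [hrest m, z0_append, Sl_append _ _ _ _ _ _ (z0_length _) (z0_length _)]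
    have h2 : Xt b m = Sl n e (rest m) (z0 (rest m)) (z0 (rest m))
        (Sl n e (r m) (z0 (r m)) (z0 (r m)) (X b m)) := by
      rw [Sl_of_commute h (r m) _ _ (z0_mem h _) (z0_mem h _) _ (hcX b m), if_pos rfl]
    rw [dist_eq_norm, h1, h2, ← map_sub, ← map_sub]
    refine (norm_Sl_le' h _ _ _ _).trans ((norm_Sl_le' h _ _ _ _).trans ?_)
    have h3 : X b m - X b (m + 1) = (X b m - U b.1 b.2) - (X b (m + 1) - U b.1 b.2) := by abel
    rw [h3]
    calc _ ≤ ‖X b m - U b.1 b.2‖ + ‖X b (m + 1) - U b.1 b.2‖ := norm_sub_le _ _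
      _ ≤ c * (1 / 2) ^ m + c * (1 / 2) ^ (m + 1) := add_le_add (hX b m) (hX b (m + 1))
      _ ≤ 2 * c * (1 / 2) ^ m := by
          rw [pow_succ]
          have : (0 : ℝ) ≤ c * (1 / 2) ^ m := by positivity
          linarith
  have hZ : ∀ b, ∃ z, Tendsto (Xt b) atTop (𝓝 z) := fun b =>
    cauchySeq_tendsto_of_complete
      (cauchySeq_of_le_geometric (1 / 2) (2 * c) (by norm_num) (hstep b))
  choose Z hZ using hZ
  have hZU : ∀ b, ‖Z b - U b.1 b.2‖ ≤ 5 * c := by
    intro b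
    have h1 := dist_le_of_le_geometric_of_tendsto₀ (1 / 2) (2 * c) (by norm_num) (hstep b) (hZ b)
    have h2 : Xt b 0 = X b 0 := by
      simp only [hXt]
      rw [hrest0]
      simp
    rw [h2, dist_eq_norm] at h1
    have h3 := hX b 0
    rw [pow_zero, mul_one] at h3
    have h4 : Z b - U b.1 b.2 = -(X b 0 - Z b) + (X b 0 - U b.1 b.2) := by abel
    rw [h4]
    refine (norm_add_le _ _).trans ?_
    rw [norm_neg]
    norm_num at h1
    linarith
  have hgeo : Tendsto (fun m : ℕ => 6 * (c * (1 / 2 : ℝ) ^ m)) atTop (𝓝 0) := by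
    have := (tendsto_pow_atTop_nhds_zero_of_lt_one (r := (1 / 2 : ℝ)) (by norm_num)
      (by norm_num)).const_mul c
    simpa using this.const_mul 6
  have hZs : ∀ b : Fin N × Fin N, star (Z b) = Z (b.2, b.1) := by
    intro b
    have h1 : Tendsto (fun m => star (Xt b m) - Xt (b.2, b.1) m) atTop
        (𝓝 (star (Z b) - Z (b.2, b.1))) := (hZ b).star.sub (hZ _)
    have h2 : Tendsto (fun m => star (Xt b m) - Xt (b.2, b.1) m) atTop (𝓝 0) := by
      refine squeeze_zero_norm (fun m => ?_) hgeo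
      simp only [hXt]
      rw [Sl_star h, ← map_sub]
      refine (norm_Sl_le' h _ _ _ _).trans ?_
      have h3 : star (X b m) - X (b.2, b.1) m = star (X b m - U b.1 b.2) -
          (X (b.2, b.1) m - U b.2 b.1) := by
        rw [star_sub, hU.st]
        abel
      rw [h3]
      refine (norm_sub_le _ _).trans ?_
      rw [norm_star]
      have := hX b m
      have := hX (b.2, b.1) m
      have h0 : (0 : ℝ) ≤ c * (1 / 2) ^ m := by positivity
      linarith
    exact sub_eq_zero.mp (tendsto_nhds_unique h1 h2)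
  have hZc : ∀ b b', ∀ f ∈ idx (L.map n), ∀ g ∈ idx (L.map n), ∀ f' ∈ idx (L.map n),
      ∀ g' ∈ idx (L.map n), Sl n e L f g (Z b) * Sl n e L f' g' (Z b') =
        Sl n e L f' g' (Z b') * Sl n e L f g (Z b) := by
    intro b b' f hf g hg f' hf' g' hg'
    have t1 : Tendsto (fun m => Sl n e L f g (Xt b m)) atTop (𝓝 (Sl n e L f g (Z b))) :=
      ((continuous_Sl h L f g).tendsto _).comp (hZ b)
    have t2 : Tendsto (fun m => Sl n e L f' g' (Xt b' m)) atTop
        (𝓝 (Sl n e L f' g' (Z b'))) := ((continuous_Sl h L f' g').tendsto _).comp (hZ b')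
    have t3 := (t1.mul t2).sub (t2.mul t1)
    have t4 : Tendsto (fun m => Sl n e L f g (Xt b m) * Sl n e L f' g' (Xt b' m) -
        Sl n e L f' g' (Xt b' m) * Sl n e L f g (Xt b m)) atTop (𝓝 0) := by
      refine squeeze_zero_norm (fun m => ?_) hgeo
      have hl : ∀ k ∈ idx (L.map n), k.length = L.length := fun k hk => by
        simpa using length_of_mem_idx hk
      have hm : ∀ k ∈ idx (L.map n), k ++ z0 (rest m) ∈ idx ((L ++ rest m).map n) := by
        intro k hk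
        rw [List.map_append]
        exact append_mem_idx hk (z0_mem h _)
      have := hcomm b b' m (f ++ z0 (rest m)) (hm f hf) (g ++ z0 (rest m)) (hm g hg)
        (f' ++ z0 (rest m)) (hm f' hf') (g' ++ z0 (rest m)) (hm g' hg')
      rwa [Sl_append _ _ _ _ _ _ (hl f hf) (hl g hg),
        Sl_append _ _ _ _ _ _ (hl f' hf') (hl g' hg')] at this
    exact sub_eq_zero.mp (tendsto_nhds_unique t3 t4)
  let s : Set E := {z | ∃ b, ∃ f ∈ idx (L.map n), ∃ g ∈ idx (L.map n), Sl n e L f g (Z b) = z}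
  have hs : ∀ z ∈ s, ∀ w ∈ s, z * w = w * z := by
    rintro _ ⟨b, f, hf, g, hg, rfl⟩ _ ⟨b', f', hf', g', hg', rfl⟩
    exact hZc b b' f hf g hg f' hf' g' hg'
  have hss : ∀ z ∈ s, star z ∈ s := by
    rintro _ ⟨b, f, hf, g, hg, rfl⟩
    refine ⟨(b.2, b.1), g, hg, f, hf, ?_⟩
    rw [Sl_star h, hZs b]
  have hsu : s ∪ star s = s := by
    refine Set.union_eq_self_of_subset_right ?_
    intro z hz
    have := hss _ hz
    rwa [star_star] at this
  let C : StarSubalgebra ℂ E := StarSubalgebra.centralizer ℂ (StarSubalgebra.centralizer ℂ s : Set E)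
  have hCc : (C : Set E) = s.centralizer.centralizer := by
    have := StarSubalgebra.coe_centralizer_centralizer ℂ s
    rw [hsu] at this
    exact this
  have hC : IsClosed (C : Set E) := by
    rw [hCc]
    exact Set.isClosed_centralizer _
  have hCcomm : ∀ x ∈ C, ∀ y ∈ C, x * y = y * x := by
    intro x hx y hy
    have hx' : x ∈ s.centralizer.centralizer := hCc ▸ hx
    have hy' : y ∈ s.centralizer.centralizer := hCc ▸ hy
    exact Set.centralizer_centralizer_comm_of_comm hs x hx' y hy'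
  have hsC : ∀ z ∈ s, z ∈ C := by
    intro z hz
    have : z ∈ (C : Set E) := by
      rw [hCc]
      exact Set.subset_centralizer_centralizer hz
    exact this
  have hmem : ∀ b, Z b ∈ sliceAlg h L C := fun b f hf g hg => hsC _ ⟨b, f, hf, g, hg, rfl⟩
  have hAP : ApproxU N (dl N) (fun a b => Z (a, b)) :=
    approx_of_close hU hc1 hc2 hc3 (fun a b => hZs (a, b)) (fun a b => hZU (a, b))
  exact transferN h L C hC hCcomm hN _ (fun a b => hmem (a, b)) hAP

end Pool.Agent.X190.UHFp
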