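import Pool.Agent.X190.UHFp.Inf

/-! A commuting family of unital copies of `M_p` is at most as large as the set of the factors with
`p ∣ n_j`. -/

open Finset Cardinal Filter Topology

universe u

namespace Pool.Agent.X190.UHFp

open Pool.Agent.Helper741.UHF

variable {J E : Type u} [CStarAlgebra E] {n : J → ℕ} {e : J → ℕ → ℕ → E}

theorem mk_le_of_infiniteN [Nontrivial E] (h : MUSys n e)
    (hgen : (Algebra.adjoin ℂ {x | ∃ j a b, x = e j a b}).topologicalClosure = ⊤)
    {p : ℕ} (hp : p.Prime)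
    {Λ : Type u} {U : Λ → Fin p × Fin p → E} (hU : ∀ α, ExactU p (fun a b => U α (a, b)))
    (hUc : ∀ α β, α ≠ β → ∀ s s', U α s * U β s' = U β s' * U α s)
    (hP : ℵ₀ ≤ #{j | p ∣ n j}) : #Λ ≤ #{j | p ∣ n j} := by
  classical
  by_contra hcon
  push Not at hcon
  have hd := dl_pos p
  have hp0 : (0 : ℝ) < p := by exact_mod_cast hp.pos
  set c := dl p / (20 * (p + 1)) with hcdef
  have hc : 0 < c := by positivity
  have hcp : c * (20 * (p + 1)) = dl p := by rw [hcdef]; field_simp
  have hdl1 : dl p ≤ 1 := by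
    unfold dl
    rw [div_le_one (by positivity)]
    have : (0 : ℝ) ≤ p := by positivity
    linarith
  have hc1 : 5 * c ≤ 1 := by nlinarith
  have hc2 : 4 * (5 * c) ≤ dl p := by nlinarith
  have hc3 : p * (5 * c) ≤ dl p := by nlinarith
  set ε : ℕ → ℝ := fun m => c * (1 / 2) ^ m with hε
  have hεpos : ∀ m, 0 < ε m := fun m => by positivity
  have hε1 : ∀ m, ε m ≤ 1 := by
    intro m
    have h1 : ((1 / 2 : ℝ)) ^ m ≤ 1 := pow_le_one₀ (by norm_num) (by norm_num)
    calc ε m ≤ c * 1 := by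
          simp only [hε]
          gcongr
      _ ≤ 1 := by linarith
  obtain ⟨N, hPN, α, hα⟩ := closing_off (#{j | p ∣ n j}) hP hcon (OverN p e)
    (fun N hN => mk_OverN_le hP N hN) (fun N hN τ hτ => OverN_finitary N hN τ hτ)
    (RealN n e U ε) {j | p ∣ n j} le_rfl
  -- approximations
  have hx : ∀ m s, ∃ T : Finset J, ∃ w ∈ D e (T : Set J), ‖w - U α s‖ ≤ ε m := by
    intro m s
    obtain ⟨T, w, hw, hwu⟩ := dense_D hgen (U α s) (hεpos m)
    exact ⟨T, w, hw, by rw [norm_sub_rev]; exact hwu.le⟩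
  choose Tx x hxD hxu using hx
  set T : ℕ → Finset J := fun m =>
    (Finset.range (m + 1)).biUnion fun k => Finset.univ.biUnion fun s => Tx k s with hT
  have hTmono : ∀ m, T m ⊆ T (m + 1) := fun m =>
    Finset.biUnion_subset_biUnion_of_subset_left _ (Finset.range_subset_range.mpr (by omega))
  have hxT : ∀ m s, x m s ∈ D e (T m : Set J) := fun m s => D_mono (by
    intro j hj
    simp only [hT, Finset.mem_coe, Finset.mem_biUnion, Finset.mem_range, Finset.mem_univ, true_and]
    exact ⟨m, by omega, s, hj⟩) (hxD m s)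
  set L : List J := ((T 0).filter (· ∉ N)).toList with hL
  set r : ℕ → List J := fun m => ((T (m + 1) \ T m).filter (· ∉ N)).toList with hr
  set rest : ℕ → List J := fun m => Nat.rec [] (fun k l => l ++ r k) m with hrest
  have hrest0 : rest 0 = [] := rfl
  have hrestS : ∀ m, rest (m + 1) = rest m ++ r m := fun m => rfl
  have hmemL : ∀ m j, j ∈ L ++ rest m ↔ j ∈ T m ∧ j ∉ N := by
    intro m
    induction m with
    | zero =>
      intro j
      rw [hrest0, List.append_nil, hL, Finset.mem_toList, Finset.mem_filter]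
    | succ m ih =>
      intro j
      rw [hrestS, ← List.append_assoc, List.mem_append, ih]
      simp only [hr, Finset.mem_toList, Finset.mem_filter, Finset.mem_sdiff]
      constructor
      · rintro (⟨h1, h2⟩ | ⟨⟨h1, _⟩, h2⟩)
        · exact ⟨hTmono m h1, h2⟩
        · exact ⟨h1, h2⟩
      · rintro ⟨h1, h2⟩
        by_cases h3 : j ∈ T m
        · exact Or.inl ⟨h3, h2⟩
        · exact Or.inr ⟨⟨h1, h3⟩, h2⟩
  have hnodup : ∀ m, (L ++ rest m).Nodup := by
    intro m
    induction m with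
    | zero =>
      rw [hrest0, List.append_nil]
      exact Finset.nodup_toList _
    | succ m ih =>
      rw [hrestS, ← List.append_assoc]
      refine List.Nodup.append ih (Finset.nodup_toList _) ?_
      intro j hj hj'
      have h1 := (hmemL m j).mp hj
      simp only [hr, Finset.mem_toList, Finset.mem_filter, Finset.mem_sdiff] at hj'
      exact hj'.1.2 h1.1
  set R : ℕ → List J := fun m => ((T m).filter (· ∈ N)).toList with hR
  have hmemR : ∀ m j, j ∈ R m ↔ j ∈ T m ∧ j ∈ N := by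
    intro m j
    rw [hR, Finset.mem_toList, Finset.mem_filter]
  have hTsub : ∀ m, (T m : Set J) ⊆ {j | j ∈ R m} ∪ {j | j ∈ L ++ rest m} := by
    intro m j hj
    by_cases h3 : j ∈ N
    · exact Or.inl ((hmemR m j).mpr ⟨hj, h3⟩)
    · exact Or.inr ((hmemL m j).mpr ⟨hj, h3⟩)
  have hLR : ∀ m, ∀ j ∈ L ++ rest m, j ∉ R m := fun m j hj hj' =>
    ((hmemL m j).mp hj).2 ((hmemR m j).mp hj').2
  have hxD' : ∀ m s, x m s ∈ D e ({j | j ∈ R m} ∪ {j | j ∈ L ++ rest m}) := fun m s =>
    D_mono (hTsub m) (hxT m s)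
  -- the twin
  have htwin : ∀ m, ∃ β, β ≠ α ∧ ∃ ℓ' : List J, (∀ j ∈ ℓ', j ∉ L ++ rest m) ∧
      (∀ j ∈ ℓ', j ∉ R m) ∧ ℓ'.map n = (L ++ rest m).map n ∧ ∃ x' : Fin p × Fin p → E,
      (∀ s, ‖x' s - U β s‖ ≤ ε m) ∧
      ∀ s, prof n e ℓ' (x' s) = prof n e (L ++ rest m) (x m s) := by
    intro m
    have hover : ((m, R m, (L ++ rest m).map n, fun s => prof n e (L ++ rest m) (x m s)) :
        TyN p J E) ∈ OverN p e N := by
      refine ⟨fun j hj => ((hmemR m j).mp hj).2, ?_⟩
      · intro s c hc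
        obtain ⟨f, hf, g, hg, rfl⟩ := mem_prof hc
        refine Sl_mem_D h _ (hnodup m) (fun j hj => ((hmemL m j).mp hj).2) ?_ f g hf hg
        refine D_mono ?_ (hxT m s)
        intro j hj
        by_cases h3 : j ∈ N
        · exact Or.inl h3
        · exact Or.inr ((hmemL m j).mpr ⟨hj, h3⟩)
    obtain ⟨β, hβ, t', ht', ℓ', h1, h2, h3, h4, x', hx', h5, h6⟩ :=
      hα _ hover {j | j ∈ L ++ rest m}
        (Set.disjoint_left.mpr fun j hj hjN => ((hmemL m j).mp hj).2 hjN)
        ⟨L ++ rest m, hnodup m, rfl, hLR m, rfl, x m, hxD' m, hxu m, fun _ => rfl⟩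
        {j | j ∈ L ++ rest m} (List.finite_toSet _)
    refine ⟨β, hβ, ℓ', ?_, h3, h4, x', h5, h6⟩
    intro j hj hj'
    rw [← h2] at ht'
    exact Set.disjoint_left.mp ht' hj hj'
  -- apply the core
  have hdv := coreN h hp.pos hc hc1 hc2 hc3 L rest r hrest0 hrestS
    (fun s m => x m s) (fun a b => U α (a, b)) (hU α)
    (fun s m => hxu m s)
    (by
      intro s m j hj a d
      have hrT : ∀ j ∈ r m, j ∉ (T m : Set J) := by
        intro j hj
        simp only [hr, Finset.mem_toList, Finset.mem_filter, Finset.mem_sdiff] at hj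
        exact hj.1.2
      exact commute_of_mem_D h (hxT m s) (hrT j hj) a d)
    (by
      intro s s' m f hf g hg f' hf' g' hg'
      obtain ⟨β, hβ, ℓ', hdis, hℓ'R, hmap, x', hx', hpx⟩ := htwin m
      have hu1 : ∀ γ t, ‖U γ t‖ ≤ 1 := fun γ t => (hU γ).norm_le t.1 t.2
      exact (stage h (hnodup m) (hLR m) hmap hdis hℓ'R (hxD' m s) (hxD' m s') (hpx s')
          f g f' g' hf' hg').trans
        (norm_comm_le (hε1 m) (hu1 _ _) (hu1 _ _) (hxu m s) (hx' s') (hUc _ _ hβ.symm s s')))
  have hnd : ¬ p ∣ (L.map n).prod := by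
    rw [hL, Finset.prod_map_toList]
    intro hdvd
    obtain ⟨j, hj, hj'⟩ := (Prime.dvd_finsetProd_iff hp.prime _).1 hdvd
    exact (Finset.mem_filter.mp hj).2 (hPN hj')
  exact hnd hdv

/-- an infinite commuting family of copies of `M_p` needs infinitely many factors -/
theorem not_finiteN [Nontrivial E] (h : MUSys n e)
    (hgen : (Algebra.adjoin ℂ {x | ∃ j a b, x = e j a b}).topologicalClosure = ⊤)
    {p : ℕ} (hp : p.Prime) {Λ : Type u} [Infinite Λ] {U : Λ → ℕ → ℕ → E}
    (hU : MUSys (fun _ : Λ => p) U) (hP : {j | p ∣ n j}.Finite) : False := by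
  classical
  have : Fact p.Prime := ⟨hp⟩
  set W := ∑ j ∈ hP.toFinset, padicValNat p (n j) with hW
  let l : List ℕ := List.replicate (W + 1) p
  have hlen : l.length = W + 1 := by simp [l]
  let g : Unit → Fin l.length → ℕ → ℕ → E := fun _ i => U (Infinite.natEmbedding Λ i)
  have hg : MUSys (fun q : Unit × Fin l.length => l.get q.2) (fun q => g q.1 q.2) := by
    have hget : ∀ i : Fin l.length, l.get i = p := fun i => by simp [l]
    refine ⟨fun q => ?_, fun q a b ha => ?_, fun q a b c hb => ?_, fun q a b c d hbc => ?_,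
      fun q a b => ?_, fun q => ?_, fun q q' hij a b c d => ?_⟩
    · rw [hget]; exact hp.pos
    · exact hU.zero_left _ a b (by rw [hget] at ha; exact ha)
    · exact hU.mul_same _ a b c (by rw [hget] at hb; exact hb)
    · exact hU.mul_ne _ a b c d hbc
    · exact hU.star_e _ a b
    · rw [hget]; exact hU.one _
    · refine hU.comm _ _ (fun hh => hij ?_) a b c d
      have := (Infinite.natEmbedding Λ).injective hh
      exact Prod.ext rfl (Fin.ext this)
  obtain ⟨G, hG, _⟩ := exists_prod l g hg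
  have hprod : l.prod = p ^ (W + 1) := by simp [l]
  have hE : ExactU (p ^ (W + 1)) (fun a b => G () a b) := exactU_of_musys hG () hprod
  obtain ⟨T, hT⟩ := exists_dvdN h hgen (pow_pos hp.pos _) hE
  have hne : ∏ j ∈ T, n j ≠ 0 := Finset.prod_ne_zero_iff.mpr fun j _ => (h.pos j).ne'
  have h1 := (padicValNat_dvd_iff_le (p := p) hne).mp hT
  rw [padic_prodp T fun j _ => (h.pos j).ne'] at h1
  have : ∑ j ∈ T, padicValNat p (n j) ≤ W := by
    rw [← Finset.sum_filter_add_sum_filter_not T (fun j => p ∣ n j)]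
    have h0 : ∑ j ∈ T.filter (fun j => ¬ p ∣ n j), padicValNat p (n j) = 0 :=
      Finset.sum_eq_zero fun j hj => padicValNat.eq_zero_of_not_dvd (Finset.mem_filter.mp hj).2
    rw [h0, add_zero]
    refine Finset.sum_le_sum_of_subset ?_
    intro j hj
    simpa using (Finset.mem_filter.mp hj).2
  omega

theorem mk_leN [Nontrivial E] (h : MUSys n e)
    (hgen : (Algebra.adjoin ℂ {x | ∃ j a b, x = e j a b}).topologicalClosure = ⊤)
    {p : ℕ} (hp : p.Prime) {Λ : Type u} [Infinite Λ] {U : Λ → ℕ → ℕ → E}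
    (hU : MUSys (fun _ : Λ => p) U) : #Λ ≤ #{j | p ∣ n j} := by
  rcases lt_or_ge (#{j | p ∣ n j}) ℵ₀ with hP | hP
  · exact absurd (not_finiteN h hgen hp hU (Cardinal.lt_aleph0_iff_set_finite.mp hP)) id
  · exact mk_le_of_infiniteN h hgen hp (U := fun α s => U α s.1 s.2)
      (fun α => exactU_of_musys hU α rfl)
      (fun α β hαβ s s' => (hU.comm α β hαβ _ _ _ _).eq) hP

end Pool.Agent.X190.UHFp
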