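import Pool.Agent.Helper741.UHF.Rep
import Pool.Agent.Helper741.UHF.Ring
import Pool.Agent.Helper741.UHF.Finite

/-! Approximate `N × N` matrix units on a finite-dimensional Hilbert space. -/

open Module Finset

universe u

namespace Pool.Agent.X190.UHFp

open Pool.Agent.Helper741.UHF

/-- approximate matrix units -/
structure ApproxU {A : Type*} [CStarAlgebra A] (N : ℕ) (δ : ℝ) (w : Fin N → Fin N → A) :
    Prop where
  st : ∀ a b, star (w a b) = w b a
  bd : ∀ a b, ‖w a b‖ ≤ 2
  ml : ∀ a b c d, ‖w a b * w c d - (if b = c then w a d else 0)‖ ≤ δ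
  sm : ‖∑ a, w a a - 1‖ ≤ δ

theorem exists_proj {A : Type*} [CStarAlgebra A] {R : A} (hR : IsSelfAdjoint R) {δ : ℝ}
    (hδ0 : 0 ≤ δ) (hδ : 4 * δ ≤ 1 / 10) (h : ‖R * R - R‖ ≤ δ) :
    ∃ P : A, IsStarProjection P ∧ ‖P - R‖ ≤ 2 * δ := by
  have hX : IsSelfAdjoint ((2 : ℝ) • R - 1) := ((IsSelfAdjoint.all (2 : ℝ)).smul hR).sub (IsSelfAdjoint.one A)
  have h1 : ((2 : ℝ) • R - 1) * ((2 : ℝ) • R - 1) - 1 = (4 : ℝ) • (R * R - R) := by
    have e : (2 : ℝ) • R = R + R := two_smul ℝ R
    have e4 : (4 : ℝ) • (R * R - R) = (R * R - R) + (R * R - R) + (R * R - R) + (R * R - R) := by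
      have : (4 : ℝ) = 1 + 1 + 1 + 1 := by norm_num
      rw [this]
      simp only [add_smul, one_smul]
    rw [e, e4]
    noncomm_ring
  have h2 : ‖((2 : ℝ) • R - 1) * ((2 : ℝ) • R - 1) - 1‖ ≤ 4 * δ := by
    rw [h1, norm_smul]
    norm_num
    linarith
  obtain ⟨P, hP, hPn⟩ := exists_projection hX (by positivity) hδ h2
  refine ⟨P, hP, ?_⟩
  have e : (1 / 2 : ℝ) • (1 + ((2 : ℝ) • R - 1)) = R := by
    rw [add_sub_cancel, smul_smul]
    norm_num
  rw [e] at hPn
  linarith

section hilbert

variable {H : Type u} [NormedAddCommGroup H] [InnerProductSpace ℂ H] [FiniteDimensional ℂ H]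

/-- Approximate matrix units divide the dimension. -/
theorem dvd_finrank {N : ℕ} (hN : 0 < N) {w : Fin N → Fin N → (H →L[ℂ] H)}
    (h : ApproxU N (1 / (40 * (N + 1))) w) : N ∣ finrank ℂ H := by
  have hNpos : (0 : ℝ) < (N : ℝ) + 1 := by positivity
  set δ : ℝ := 1 / (40 * (N + 1)) with hδdef
  have hδ0 : 0 < δ := by positivity
  have hδN : δ * (N + 1) = 1 / 40 := by
    rw [hδdef]
    field_simp
  have hN1 : (1 : ℝ) ≤ N := by exact_mod_cast hN
  have hδ1 : 4 * δ ≤ 1 / 10 := by nlinarith
  let o : Fin N := ⟨0, hN⟩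
  have hsq : ‖w o o * w o o - w o o‖ ≤ δ := by
    have := h.ml o o o o
    rwa [if_pos rfl] at this
  obtain ⟨P, hP, hPn⟩ := exists_proj (h.st o o : IsSelfAdjoint (w o o)) hδ0.le hδ1 hsq
  set V : Submodule ℂ H := LinearMap.range (P : H →ₗ[ℂ] H) with hV
  have hPV : ∀ v ∈ V, P v = v := by
    rintro _ ⟨x, rfl⟩
    have := congrArg (fun T : H →L[ℂ] H => T x) hP.isIdempotentElem.eq
    simpa using this
  let Φ : (Fin N → V) →ₗ[ℂ] H :=
    { toFun := fun v => ∑ a, w a o (v a : H)
      map_add' := fun v v' => by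
        simp only [Pi.add_apply, Submodule.coe_add, map_add, Finset.sum_add_distrib]
      map_smul' := fun r v => by
        simp only [Pi.smul_apply, Submodule.coe_smul, map_smul, Finset.smul_sum, RingHom.id_apply] }
  have hΦ : ∀ v, Φ v = ∑ a, w a o (v a : H) := fun _ => rfl
  have hinj : Function.Injective Φ := by
    rw [← LinearMap.ker_eq_bot, LinearMap.ker_eq_bot']
    intro v hv
    have key : ∀ b, ‖(v b : H)‖ ≤ ∑ a, δ * ‖(v a : H)‖ + 2 * δ * ‖(v b : H)‖ := by
      intro b
      have e0 : w o b (Φ v) = 0 := by rw [hv, map_zero]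
      have e1 : (v b : H) = -(∑ a, (w o b * w a o - (if b = a then w o o else 0)) (v a : H)) +
          (P - w o o) (v b : H) := by
        have e2 : ∑ a, (w o b * w a o - (if b = a then w o o else 0)) (v a : H) =
            w o b (Φ v) - w o o (v b : H) := by
          rw [hΦ, map_sum]
          simp only [sub_apply, Finset.sum_sub_distrib, mul_apply_eq_comp]
          congr 1
          rw [Finset.sum_eq_single b]
          · rw [if_pos rfl]
          · intro a _ ha
            rw [if_neg (Ne.symm ha)]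
            rfl
          · intro hb
            exact absurd (Finset.mem_univ b) hb
        rw [e2, e0, sub_apply, hPV _ (v b).2]
        abel
      calc ‖(v b : H)‖ = ‖-(∑ a, (w o b * w a o - (if b = a then w o o else 0)) (v a : H)) +
          (P - w o o) (v b : H)‖ := by rw [← e1]
        _ ≤ ‖∑ a, (w o b * w a o - (if b = a then w o o else 0)) (v a : H)‖ +
            ‖(P - w o o) (v b : H)‖ := by
              refine (norm_add_le _ _).trans ?_
              rw [norm_neg]
        _ ≤ ∑ a, δ * ‖(v a : H)‖ + 2 * δ * ‖(v b : H)‖ := by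
              refine add_le_add ?_ ?_
              · refine (norm_sum_le _ _).trans (Finset.sum_le_sum fun a _ => ?_)
                exact (ContinuousLinearMap.le_opNorm _ _).trans
                  (mul_le_mul_of_nonneg_right (h.ml _ _ _ _) (norm_nonneg _))
              · exact (ContinuousLinearMap.le_opNorm _ _).trans
                  (mul_le_mul_of_nonneg_right hPn (norm_nonneg _))
    have hS : ∑ b, ‖(v b : H)‖ ≤ (N + 2) * δ * ∑ b, ‖(v b : H)‖ := by
      calc ∑ b, ‖(v b : H)‖ ≤ ∑ b : Fin N, (∑ a, δ * ‖(v a : H)‖ + 2 * δ * ‖(v b : H)‖) :=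
            Finset.sum_le_sum fun b _ => key b
        _ = (N + 2) * δ * ∑ b, ‖(v b : H)‖ := by
            rw [Finset.sum_add_distrib, Finset.sum_const, Finset.card_univ, Fintype.card_fin,
              ← Finset.mul_sum, ← Finset.mul_sum, nsmul_eq_mul]
            ring
    have hS0 : 0 ≤ ∑ b, ‖(v b : H)‖ := Finset.sum_nonneg fun _ _ => norm_nonneg _
    have hlt : (N + 2) * δ < 1 := by nlinarith
    have hz : ∑ b, ‖(v b : H)‖ = 0 := by nlinarith
    funext b
    have := (Finset.sum_eq_zero_iff_of_nonneg (fun _ _ => norm_nonneg _)).1 hz b (Finset.mem_univ b)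
    exact Subtype.ext (norm_eq_zero.1 this)
  have hsurj : Function.Surjective Φ := by
    let T : H →L[ℂ] H := ∑ a, w a o * P * w o a
    have hT : ‖T - 1‖ < 1 := by
      have e1 : T - 1 = ∑ a, (w a o * P * w o a - w a a) + (∑ a, w a a - 1) := by
        simp only [T, Finset.sum_sub_distrib]
        abel
      have e2 : ∀ a, ‖w a o * P * w o a - w a a‖ ≤ 11 * δ := by
        intro a
        have d1 := h.ml a o o o
        rw [if_pos rfl] at d1
        have d2 := h.ml a o o a
        rw [if_pos rfl] at d2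
        have e3 : w a o * P * w o a - w a a = w a o * (P - w o o) * w o a +
            (w a o * w o o - w a o) * w o a + (w a o * w o a - w a a) := by noncomm_ring
        rw [e3]
        have n1 : ‖w a o * (P - w o o) * w o a‖ ≤ 2 * (2 * δ) * 2 := by
          calc _ ≤ ‖w a o * (P - w o o)‖ * ‖w o a‖ := norm_mul_le _ _
            _ ≤ (‖w a o‖ * ‖P - w o o‖) * ‖w o a‖ := by gcongr; exact norm_mul_le _ _
            _ ≤ 2 * (2 * δ) * 2 := by
                have := h.bd a o
                have := h.bd o a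
                gcongr
        have n2 : ‖(w a o * w o o - w a o) * w o a‖ ≤ δ * 2 := by
          calc _ ≤ ‖w a o * w o o - w a o‖ * ‖w o a‖ := norm_mul_le _ _
            _ ≤ δ * 2 := by
                have := h.bd o a
                gcongr
        calc _ ≤ ‖w a o * (P - w o o) * w o a + (w a o * w o o - w a o) * w o a‖ +
              ‖w a o * w o a - w a a‖ := norm_add_le _ _
          _ ≤ ‖w a o * (P - w o o) * w o a‖ + ‖(w a o * w o o - w a o) * w o a‖ +
              ‖w a o * w o a - w a a‖ := by gcongr; exact norm_add_le _ _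
          _ ≤ 11 * δ := by linarith
      rw [e1]
      calc _ ≤ ‖∑ a, (w a o * P * w o a - w a a)‖ + ‖∑ a, w a a - 1‖ := norm_add_le _ _
        _ ≤ ∑ a : Fin N, 11 * δ + δ := by
            refine add_le_add ((norm_sum_le _ _).trans (Finset.sum_le_sum fun a _ => e2 a)) h.sm
        _ = (11 * N + 1) * δ := by
            rw [Finset.sum_const, Finset.card_univ, Fintype.card_fin, nsmul_eq_mul]
            ring
        _ < 1 := by nlinarith
    have hTu : IsUnit T := by
      have h1 : ‖1 - T‖ < 1 := by rwa [norm_sub_rev]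
      have := isUnit_one_sub_of_norm_lt_one h1
      rwa [sub_sub_cancel] at this
    obtain ⟨U, hU⟩ := hTu
    intro y
    let x : H := (↑U⁻¹ : H →L[ℂ] H) y
    have hx : T x = y := by
      have : (T * (↑U⁻¹ : H →L[ℂ] H)) y = y := by
        rw [← hU, Units.mul_inv]
        rfl
      exact this
    refine ⟨fun a => ⟨P (w o a x), ⟨w o a x, rfl⟩⟩, ?_⟩
    rw [hΦ]
    rw [← hx]
    simp only [T, FunLike.coe_sum, Finset.sum_apply]
    rfl
  have he := LinearEquiv.finrank_eq (LinearEquiv.ofBijective Φ ⟨hinj, hsurj⟩)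
  rw [Module.finrank_pi_fintype, Finset.sum_const, Finset.card_univ, Fintype.card_fin,
    smul_eq_mul] at he
  exact ⟨_, he.symm⟩

end hilbert

/-- the fundamental constant -/
noncomputable def dl (N : ℕ) : ℝ := 1 / (40 * (N + 1))

theorem dl_pos (N : ℕ) : 0 < dl N := by unfold dl; positivity

theorem transferN {J : Type*} {E : Type*} [CStarAlgebra E] [Nontrivial E] {n : J → ℕ}
    {e : J → ℕ → ℕ → E} (h : MUSys n e) (ℓ : List J) (C : StarSubalgebra ℂ E)
    (hC : IsClosed (C : Set E)) (hcomm : ∀ x ∈ C, ∀ y ∈ C, x * y = y * x) {N : ℕ} (hN : 0 < N)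
    (x : Fin N → Fin N → E) (hx : ∀ a b, x a b ∈ sliceAlg h ℓ C)
    (hA : ApproxU N (dl N) x) : N ∣ (ℓ.map n).prod := by
  obtain ⟨χ⟩ := exists_character C hC hcomm
  have hn := norm_opRep_le h ℓ C hC χ
  let X : Fin N → Fin N → sliceAlg h ℓ C := fun a b => ⟨x a b, hx a b⟩
  have key : ∀ (z : sliceAlg h ℓ C) (c : ℝ), ‖(z : E)‖ ≤ c → ‖opRep h ℓ C χ z‖ ≤ c :=
    fun z c hz => (hn z).trans hz
  have hAP : ApproxU N (dl N) (fun a b => opRep h ℓ C χ (X a b)) := by
    refine ⟨fun a b => ?_, fun a b => ?_, fun a b c d => ?_, ?_⟩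
    · rw [← map_star]
      congr 1
      exact Subtype.ext (hA.st a b)
    · exact key _ _ (hA.bd a b)
    · have e : (if b = c then opRep h ℓ C χ (X a d) else 0) =
          opRep h ℓ C χ (if b = c then X a d else 0) := by
        split_ifs
        · rfl
        · rw [map_zero]
      rw [e, ← map_mul, ← map_sub]
      refine key _ _ ?_
      have := hA.ml a b c d
      split_ifs at this ⊢ <;> exact this
    · rw [← map_sum, ← map_one (opRep h ℓ C χ), ← map_sub]
      refine key _ _ ?_
      have := hA.sm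
      have e : ((∑ a, X a a - 1 : sliceAlg h ℓ C) : E) = ∑ a, x a a - 1 := by
        simp [X]
      rw [e]
      exact this
  have := dvd_finrank hN hAP
  rwa [finrank_euclideanSpace, Fintype.card_coe, card_idx] at this

end Pool.Agent.X190.UHFp
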